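import Pool.Agent.H.MP_b4625f_gt.B

set_option autoImplicit false

namespace Pool.Agent.Results.MP_b4625f_gt.Yes

open Real

theorem result (X Y : ℝ → ℝ) (L : ℝ) (hL : 0 < L) (hX : ContDiff ℝ 2 X) (hY : ContDiff ℝ 2 Y)
    (unit : ∀ t, deriv X t ^ 2 + deriv Y t ^ 2 = 1)
    (pX : Function.Periodic X L) (pY : Function.Periodic Y L)
    (cvx : ∀ t s, t < s → s < t + L → 0 < deriv X t * (Y s - Y t) - deriv Y t * (X s - X t))
    (l : ℝ) (hl : 0 < l) (θ : ℝ → ℝ) (hθ : Differentiable ℝ θ)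
    (ode : ∀ t, l * deriv θ t = deriv X t * sin (θ t) - deriv Y t * cos (θ t))
    (ρ : ℤ) (hρ : θ L - θ 0 = 2 * π * ρ) : ρ = 1 := by
  obtain ⟨v, φ, κ, T⟩ := H.MP_b4625f_gt.mkTrack hL hX hY (fun t => by rw [unit]; exact one_pos)
    pX pY cvx
  refine H.MP_b4625f_gt.rot T hl (θ := θ) (fun t => (hθ t).hasDerivAt.congr_deriv ?_)
    (by linarith)
  have := ode t
  rw [(T.hX t).deriv, (T.hY t).deriv] at this
  rw [eq_div_iff hl.ne', sin_sub]
  linarith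

end Pool.Agent.Results.MP_b4625f_gt.Yes
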